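import Pool.Agent.H39.CN.Alg

namespace Pool.Agent.Results.MP_b9eae2_al.NoStoppingNumber

open H39.CNITA

universe u v

/-- There is no C-NITA generated by a faithful non-real element `b₃` of degree 3 with
`b₃² = b̄₃ + b₆` whose stopping number `n` satisfies `4 ≤ n ≤ 42`. -/
theorem result {ι : Type u} {A : Type v} [CommRing A] [Algebra ℂ A] (T : TableAlgebra ι A)
    (i₃ : ι) (h : T.Setting i₃) (n : ℕ) (h4 : 4 ≤ n) (h42 : n ≤ 42) :
    ¬ T.StoppingNumber i₃ n :=
  T.no_stopping h h4 h42

end Pool.Agent.Results.MP_b9eae2_al.NoStoppingNumber
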